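import Pool.Agent.U987.BI.Path

/-!
# MP_28b04d_gt, Q1: smoothing topological isotopies of bounded local distortion

Q1 asks whether every diffeomorphism of `CP²` that acts trivially on homology is smoothly isotopic
to the identity.  By the theorems of Perron and Quinn it is isotopic to the identity through
homeomorphisms; the question is whether the path of homeomorphisms can be made smooth.  We show that
it can be made smooth as long as its local bi-Lipschitz distortion stays below an explicit constant,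
for all closed connected smooth manifolds `X`, `Y` of dimension `n` (for Q1 `X = Y = CP²`, `n = 4`,
`φ₀ = id`).

Let `ι : X → ℝ^m` and `e : Y → ℝ^d` be smooth embeddings and `ρ ≥ 1` with

`ρ² (√m - 1) < √m + 1`

(for instance `ρ = 1.44` for the standard embedding of `CP²` in `ℝ⁸`; the golden ratio is the bound
for `m = 5`). Let `f_t : X → Y`, `0 ≤ t ≤ 1`, be a path of homeomorphisms between two
diffeomorphisms `φ₀`, `φ₁` such that every `(t₀, x)` has a neighbourhood `U` of `x` and `s > 0` such
that for `|t - t₀| ≤ s` there is a factor `a > 0` (depending on `t`) with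

`a |ι p - ι q| ≤ |e f_t p - e f_t q| ≤ ρ a |ι p - ι q|` for all `p, q ∈ U`.

Then `φ₀` and `φ₁` are smoothly isotopic, and the smooth isotopy can be chosen in any neighbourhood of
the path: for every `ε > 0` with all its stages `ε`-close to stages of `f`. So a diffeomorphism of
`CP²` which acts trivially on homology and is not smoothly isotopic to the identity is not joined to
it by any path of homeomorphisms of local distortion less than the constant.

The maps `f_t` with `0 < t < 1` need not be differentiable anywhere (in dimension at least 2 they may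
for instance contain logarithmic spirals at a dense set of points), they need not be close to affine
maps at small scales, and nothing is assumed about the dependence on `t` except continuity.

Proof: the maps `e ∘ f_t` are extended to a neighbourhood of `ι X`, mollified in `ℝ^m` with a kernel
whose gradient is supported in a thin shell, with one small radius `δ`, and projected to `Y`. If `D`
is the derivative of the mollified map at `z = ι x` and `w` a unit vector tangent to `ι X` there, then
the projection of `D w` has a positive inner product with `e f_t x₊ - e f_t x₋`, where `x₊`, `x₋` are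
the points of `X` next to `z + δ w`, `z - δ w`: this follows from a four point inequality in the
target, in which only distances occur, for pairs of points which are symmetric with respect to the
hyperplane orthogonal to `w`. This holds uniformly in `t` and `x`; the isotopies between nearby `t`
are straight line homotopies, as in the library of nearly affine paths.
-/

set_option autoImplicit false

open Set Filter Topology Metric Function
open scoped Manifold ContDiff

namespace Pool.Agent.Results.MP_28b04d_gt.BiLipschitzIsotopy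

section defs

variable {n : ℕ} {X Y : Type} [TopologicalSpace X] [TopologicalSpace Y]
  [ChartedSpace (EuclideanSpace ℝ (Fin n)) X] [ChartedSpace (EuclideanSpace ℝ (Fin n)) Y]

/-- the differential of `e : Y → ℝ^d` (computed in the preferred chart at the point) is injective
at every point -/
def IsImmersed {d : ℕ} (e : Y → EuclideanSpace ℝ (Fin d)) : Prop :=
  ∀ (y : Y) (v : EuclideanSpace ℝ (Fin n)),
    fderiv ℝ (fun t => e ((chartAt (EuclideanSpace ℝ (Fin n)) y).symm t))
      (chartAt (EuclideanSpace ℝ (Fin n)) y y) v = 0 → v = 0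

/-- `e : Y → ℝ^d` is smooth and injective with injective differentials -/
def IsEmbeddingOf (n : ℕ) {Y : Type} [TopologicalSpace Y]
    [ChartedSpace (EuclideanSpace ℝ (Fin n)) Y] {d : ℕ} (e : Y → EuclideanSpace ℝ (Fin d)) : Prop :=
  ContMDiff (𝓡 n) (𝓡 d) ∞ e ∧ Injective e ∧ IsImmersed (n := n) e

/-- `φ` is a diffeomorphism -/
def IsDiffeo (n : ℕ) {X Y : Type} [TopologicalSpace X]
    [ChartedSpace (EuclideanSpace ℝ (Fin n)) X] [TopologicalSpace Y]
    [ChartedSpace (EuclideanSpace ℝ (Fin n)) Y] (φ : X → Y) : Prop :=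
  ∃ Φ : X ≃ₘ^∞⟮𝓡 n, 𝓡 n⟯ Y, ∀ x, Φ x = φ x

/-- `K` is a smooth path of diffeomorphisms from `φ₀` to `φ₁` -/
def IsSmoothIsotopy (n : ℕ) {X Y : Type} [TopologicalSpace X]
    [ChartedSpace (EuclideanSpace ℝ (Fin n)) X] [TopologicalSpace Y]
    [ChartedSpace (EuclideanSpace ℝ (Fin n)) Y] (φ₀ φ₁ : X → Y) (K : ℝ × X → Y) : Prop :=
  ContMDiff ((𝓘(ℝ, ℝ)).prod (𝓡 n)) (𝓡 n) ∞ K ∧ (∀ t, IsDiffeo n (fun x => K (t, x))) ∧
    (∀ x, K (0, x) = φ₀ x) ∧ ∀ x, K (1, x) = φ₁ x

/-- `f_t`, `0 ≤ t ≤ 1`, is a continuous path of bijections (homeomorphisms, if `X` is compact and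
`Y` Hausdorff) from `φ₀` to `φ₁` -/
def IsTopIsotopy {X Y : Type} [TopologicalSpace X] [TopologicalSpace Y] (φ₀ φ₁ : X → Y)
    (f : ℝ × X → Y) : Prop :=
  ContinuousOn f (Icc (0 : ℝ) 1 ×ˢ univ) ∧ (∀ t ∈ Icc (0 : ℝ) 1, Bijective (fun x => f (t, x))) ∧
    (∀ x, f (0, x) = φ₀ x) ∧ ∀ x, f (1, x) = φ₁ x

/-- on the set `U` the map `G : X → ℝ^d` changes the distances measured by `ι : X → ℝ^m` at least by
the factor `a` and at most by the factor `ρ a` -/
def Between {X : Type} {m d : ℕ} (ι : X → EuclideanSpace ℝ (Fin m))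
    (G : X → EuclideanSpace ℝ (Fin d)) (a ρ : ℝ) (U : Set X) : Prop :=
  ∀ p ∈ U, ∀ q ∈ U, a * ‖ι p - ι q‖ ≤ ‖G p - G q‖ ∧ ‖G p - G q‖ ≤ ρ * (a * ‖ι p - ι q‖)

/-- the path `F_t : X → ℝ^d`, `0 ≤ t ≤ 1`, has local distortion at most `ρ`: every `(t₀, x)` has a
neighbourhood on which each `F_t` is `ρ`-bi-Lipschitz up to a factor depending on `t` -/
def BiLipschitzPath {X : Type} [TopologicalSpace X] {m d : ℕ}
    (ι : X → EuclideanSpace ℝ (Fin m)) (ρ : ℝ) (F : ℝ × X → EuclideanSpace ℝ (Fin d)) : Prop :=
  ∀ t₀ ∈ Icc (0 : ℝ) 1, ∀ x : X, ∃ U ∈ 𝓝 x, ∃ s > 0, ∀ t ∈ Icc (0 : ℝ) 1, |t - t₀| ≤ s →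
    ∃ a > 0, Between ι (fun p => F (t, p)) a ρ U

end defs

/-- Two diffeomorphisms of closed connected manifolds which are joined by a path of homeomorphisms of
local distortion at most `ρ`, `ρ² (√m - 1) < √m + 1`, are smoothly isotopic; the smooth isotopy can
be chosen in any neighbourhood of the path. -/
theorem result (n : ℕ) (X Y : Type) [TopologicalSpace X] [T2Space X] [CompactSpace X]
    [ConnectedSpace X] [ChartedSpace (EuclideanSpace ℝ (Fin n)) X] [IsManifold (𝓡 n) ∞ X]
    [TopologicalSpace Y] [T2Space Y] [CompactSpace Y]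
    [ChartedSpace (EuclideanSpace ℝ (Fin n)) Y] [IsManifold (𝓡 n) ∞ Y]
    (m d : ℕ) (ι : X → EuclideanSpace ℝ (Fin m)) (hι : IsEmbeddingOf n ι)
    (e : Y → EuclideanSpace ℝ (Fin d)) (he : IsEmbeddingOf n e)
    (ρ : ℝ) (hρ : 1 ≤ ρ) (hρm : ρ ^ 2 * (Real.sqrt m - 1) < Real.sqrt m + 1)
    (φ₀ φ₁ : X → Y) (h0 : IsDiffeo n φ₀) (h1 : IsDiffeo n φ₁)
    (f : ℝ × X → Y) (hf : IsTopIsotopy φ₀ φ₁ f) (hfa : BiLipschitzPath ι ρ (fun q => e (f q)))
    (ε : ℝ) (hε : ε > 0) :
    ∃ K : ℝ × X → Y, IsSmoothIsotopy n φ₀ φ₁ K ∧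
      ∀ t, ∃ t' ∈ Icc (0 : ℝ) 1, ∀ x, ‖e (K (t, x)) - e (f (t', x))‖ ≤ ε :=
  Pool.Agent.U987.BI.suff_bl n X Y m d ι hι e he ρ hρ hρm φ₀ φ₁ h0 h1 f hf hfa ε hε

end Pool.Agent.Results.MP_28b04d_gt.BiLipschitzIsotopy
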