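import Pool.Agent.U498.AI.Final

/-!
# MP_28b04d_gt, Q1: smoothing topological isotopies which are nearly affine at a sequence of scales

Q1 asks whether every diffeomorphism of `CP²` that acts trivially on homology is smoothly isotopic
to the identity.  By the theorems of Perron and Quinn it is isotopic to the identity through
homeomorphisms; the question is whether the path of homeomorphisms can be made smooth.  The theorem
gives a criterion which is necessary and sufficient, for all closed connected smooth manifolds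
`X`, `Y` of dimension `n` (for Q1 `X = Y = CP²`, `n = 4`, `φ₀ = id`).

Let `ι : X → ℝ^m` and `e : Y → ℝ^d` be smooth embeddings (by Nash `ι` induces any given Riemannian
metric), `c > 0` a constant with `c (1 + √m) < 1` and `r₀, r₁, …` positive numbers which tend to `0`.
Two diffeomorphisms `φ₀, φ₁ : X → Y` are smoothly isotopic if and only if they are joined by a path
of homeomorphisms `f_t : X → Y`, `0 ≤ t ≤ 1`, which is `c`-close to affine maps at the scales `r_k`:
every `(t₀, x)` has a smooth parametrization `A` of a neighbourhood of `x = A 0`, isometric to first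
order at `0`, such that for all large `k`, all `t` near `t₀` and all `y` near `0` there is an affine
map `p ↦ a + L p` with

`|e f_t A p - (a + L p)| ≤ c r_k |L v|` for `|p - y| ≤ r_k` and all unit vectors `v`.

Moreover the smooth isotopy can be chosen in any neighbourhood of the path: for every `ε > 0` with
all its stages `ε`-close to stages of `f`.

The linear parts `L` may depend on `t`, on the point and on the scale, and may have arbitrarily
large distortion and arbitrarily small or large norm: the maps `f_t` need not be Lipschitz or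
quasiconformal, nothing is assumed about the dependence on `t` except continuity, and between the
scales `r_k` the maps are not restricted. No `f_t` with `0 < t < 1` need be smooth anywhere.

Proof: the maps `e ∘ f_t` are mollified in `ℝ^m` with one radius slightly less than `r_k` (for one
large `k`) and projected to `Y` by the nearest point retraction; the mollified maps are immersions,
uniformly in `t`, depend continuously on `t` in the `C^1` topology, and so do their straight line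
homotopies for nearby `t`; at the ends the mollified maps are `C^1`-close to `φ₀`, `φ₁`. All the
projected maps are local diffeomorphisms close to homeomorphisms, hence diffeomorphisms.
-/

set_option autoImplicit false

open Set Filter Topology Metric Function
open scoped Manifold ContDiff

namespace Pool.Agent.Results.MP_28b04d_gt.NearlyAffineIsotopy

section defs

variable {n : ℕ} {X Y : Type} [TopologicalSpace X] [TopologicalSpace Y]
  [ChartedSpace (EuclideanSpace ℝ (Fin n)) X] [ChartedSpace (EuclideanSpace ℝ (Fin n)) Y]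

/-- the differential of `e : Y → ℝ^d` (computed in the preferred chart at the point) is injective
at every point -/
def IsImmersed {d : ℕ} (e : Y → EuclideanSpace ℝ (Fin d)) : Prop :=
  ∀ (y : Y) (v : EuclideanSpace ℝ (Fin n)),
    fderiv ℝ (fun t => e ((chartAt (EuclideanSpace ℝ (Fin n)) y).symm t))
      (chartAt (EuclideanSpace ℝ (Fin n)) y y) v = 0 → v = 0

/-- `e : Y → ℝ^d` is smooth and injective with injective differentials -/
def IsEmbeddingOf (n : ℕ) {Y : Type} [TopologicalSpace Y]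
    [ChartedSpace (EuclideanSpace ℝ (Fin n)) Y] {d : ℕ} (e : Y → EuclideanSpace ℝ (Fin d)) : Prop :=
  ContMDiff (𝓡 n) (𝓡 d) ∞ e ∧ Injective e ∧ IsImmersed (n := n) e

/-- `φ` is a diffeomorphism -/
def IsDiffeo (n : ℕ) {X Y : Type} [TopologicalSpace X]
    [ChartedSpace (EuclideanSpace ℝ (Fin n)) X] [TopologicalSpace Y]
    [ChartedSpace (EuclideanSpace ℝ (Fin n)) Y] (φ : X → Y) : Prop :=
  ∃ Φ : X ≃ₘ^∞⟮𝓡 n, 𝓡 n⟯ Y, ∀ x, Φ x = φ x

/-- `K` is a smooth path of diffeomorphisms from `φ₀` to `φ₁` -/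
def IsSmoothIsotopy (n : ℕ) {X Y : Type} [TopologicalSpace X]
    [ChartedSpace (EuclideanSpace ℝ (Fin n)) X] [TopologicalSpace Y]
    [ChartedSpace (EuclideanSpace ℝ (Fin n)) Y] (φ₀ φ₁ : X → Y) (K : ℝ × X → Y) : Prop :=
  ContMDiff ((𝓘(ℝ, ℝ)).prod (𝓡 n)) (𝓡 n) ∞ K ∧ (∀ t, IsDiffeo n (fun x => K (t, x))) ∧
    (∀ x, K (0, x) = φ₀ x) ∧ ∀ x, K (1, x) = φ₁ x

/-- `φ₀` and `φ₁` are joined by a smooth path of diffeomorphisms -/
def SmoothlyIsotopic (n : ℕ) {X Y : Type} [TopologicalSpace X]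
    [ChartedSpace (EuclideanSpace ℝ (Fin n)) X] [TopologicalSpace Y]
    [ChartedSpace (EuclideanSpace ℝ (Fin n)) Y] (φ₀ φ₁ : X → Y) : Prop :=
  ∃ K : ℝ × X → Y, IsSmoothIsotopy n φ₀ φ₁ K

/-- `f_t`, `0 ≤ t ≤ 1`, is a continuous path of bijections (homeomorphisms, if `X` is compact and
`Y` Hausdorff) from `φ₀` to `φ₁` -/
def IsTopIsotopy {X Y : Type} [TopologicalSpace X] [TopologicalSpace Y] (φ₀ φ₁ : X → Y)
    (f : ℝ × X → Y) : Prop :=
  ContinuousOn f (Icc (0 : ℝ) 1 ×ˢ univ) ∧ (∀ t ∈ Icc (0 : ℝ) 1, Bijective (fun x => f (t, x))) ∧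
    (∀ x, f (0, x) = φ₀ x) ∧ ∀ x, f (1, x) = φ₁ x

/-- on the ball of radius `r` around `y` the map `G` differs from the affine map `p ↦ a + L p` by at
most `c r |L v|`, for every unit vector `v` -/
def NearlyAffineOn {d : ℕ} (G : EuclideanSpace ℝ (Fin n) → EuclideanSpace ℝ (Fin d)) (c r : ℝ)
    (y : EuclideanSpace ℝ (Fin n)) (a : EuclideanSpace ℝ (Fin d))
    (L : EuclideanSpace ℝ (Fin n) →L[ℝ] EuclideanSpace ℝ (Fin d)) : Prop :=
  ∀ p, ‖p - y‖ ≤ r → ∀ v, ‖v‖ = 1 → ‖G p - (a + L p)‖ ≤ c * (r * ‖L v‖)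

/-- the path `F_t : X → ℝ^d`, `0 ≤ t ≤ 1`, is `c`-close to affine maps at the scales `r k`: at every
`(t₀, x)`, in a smooth parametrization `A` of a neighbourhood of `x = A 0`, isometric to first order
at `0` for the metric induced by `ι`, for all large `k`, all `t` near `t₀` and all `y` near `0` some
affine map is `c`-close to `F_t ∘ A` on the ball of radius `r k` around `y` -/
def NearlyAffinePath (n : ℕ) {X : Type} [TopologicalSpace X]
    [ChartedSpace (EuclideanSpace ℝ (Fin n)) X] {m d : ℕ} (ι : X → EuclideanSpace ℝ (Fin m))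
    (c : ℝ) (r : ℕ → ℝ) (F : ℝ × X → EuclideanSpace ℝ (Fin d)) : Prop :=
  ∀ t₀ ∈ Icc (0 : ℝ) 1, ∀ x : X, ∃ A : EuclideanSpace ℝ (Fin n) → X, A 0 = x ∧
    IsLocalDiffeomorphAt (𝓡 n) (𝓡 n) ∞ A 0 ∧
    (∀ v, ‖fderiv ℝ (fun w => ι (A w)) 0 v‖ = ‖v‖) ∧
    ∃ s > 0, ∃ k₀ : ℕ, ∀ k ≥ k₀, ∀ t ∈ Icc (0 : ℝ) 1, |t - t₀| ≤ s → ∀ y, ‖y‖ ≤ s → ∃ a L,
      NearlyAffineOn (fun p => F (t, A p)) c (r k) y a L

end defs

/-- Two diffeomorphisms of closed connected manifolds are smoothly isotopic if and only if they are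
joined by a path of homeomorphisms which is `c`-close to affine maps at the scales `r k`; the smooth
isotopy can be chosen in any neighbourhood of the path. -/
theorem result (n : ℕ) (X Y : Type) [TopologicalSpace X] [T2Space X] [CompactSpace X]
    [ConnectedSpace X] [ChartedSpace (EuclideanSpace ℝ (Fin n)) X] [IsManifold (𝓡 n) ∞ X]
    [TopologicalSpace Y] [T2Space Y] [CompactSpace Y]
    [ChartedSpace (EuclideanSpace ℝ (Fin n)) Y] [IsManifold (𝓡 n) ∞ Y]
    (m d : ℕ) (ι : X → EuclideanSpace ℝ (Fin m)) (hι : IsEmbeddingOf n ι)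
    (e : Y → EuclideanSpace ℝ (Fin d)) (he : IsEmbeddingOf n e)
    (c : ℝ) (hc0 : 0 < c) (hc : c * (1 + Real.sqrt m) < 1)
    (r : ℕ → ℝ) (hr : ∀ k, 0 < r k) (hr0 : Tendsto r atTop (𝓝 0))
    (φ₀ φ₁ : X → Y) (h0 : IsDiffeo n φ₀) (h1 : IsDiffeo n φ₁) :
    (SmoothlyIsotopic n φ₀ φ₁ ↔ ∃ f : ℝ × X → Y, IsTopIsotopy φ₀ φ₁ f ∧
      NearlyAffinePath n ι c r (fun q => e (f q))) ∧
    ∀ f : ℝ × X → Y, IsTopIsotopy φ₀ φ₁ f → NearlyAffinePath n ι c r (fun q => e (f q)) →
      ∀ ε > 0, ∃ K : ℝ × X → Y, IsSmoothIsotopy n φ₀ φ₁ K ∧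
        ∀ t, ∃ t' ∈ Icc (0 : ℝ) 1, ∀ x, ‖e (K (t, x)) - e (f (t', x))‖ ≤ ε := by
  have hsuff : ∀ f : ℝ × X → Y, IsTopIsotopy φ₀ φ₁ f →
      NearlyAffinePath n ι c r (fun q => e (f q)) →
      ∀ ε > 0, ∃ K : ℝ × X → Y, IsSmoothIsotopy n φ₀ φ₁ K ∧
        ∀ t, ∃ t' ∈ Icc (0 : ℝ) 1, ∀ x, ‖e (K (t, x)) - e (f (t', x))‖ ≤ ε :=
    Pool.Agent.U498.AI.suff_final n X Y m d ι hι e he c hc0.le hc r hr hr0 φ₀ φ₁ h0 h1
  refine ⟨⟨fun h => ?_, ?_⟩, hsuff⟩
  · exact Pool.Agent.U498.AI.nec_final n X Y m d ι hι e he c hc0 r hr0 φ₀ φ₁ h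
  · rintro ⟨f, hf, hfa⟩
    obtain ⟨K, hK, -⟩ := hsuff f hf hfa 1 one_pos
    exact ⟨K, hK⟩

end Pool.Agent.Results.MP_28b04d_gt.NearlyAffineIsotopy
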