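import Pool.Agent.U987.BI.Chart

/-!
# MP_28b04d_gt, Q1: diffeomorphisms of small distortion in charts are isotopic to the identity

Q1 asks whether every diffeomorphism of `CP²` that acts trivially on homology is smoothly isotopic to
the identity. Natural candidates for a negative answer are push-forwards of compactly supported
diffeomorphisms of `ℝ⁴` along smooth open embeddings `c : ℝ⁴ → CP²` (all of them act trivially on
homology, and it is not known whether they are isotopic to the identity). We show that they are if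
their distortion is less than `√3`. For all `n` and all smooth `n`-manifolds `X`:

1. a compactly supported diffeomorphism `ψ` of `ℝⁿ` with `a |p - q| ≤ |ψ p - ψ q| ≤ ρ a |p - q|` for
   all `p`, `q`, where `ρ² (√n - 1) < √n + 1` (for `n = 4`: `ρ < √3`) and `a > 0`, is joined to the
   identity by a smooth path of diffeomorphisms which are all equal to the identity outside one
   compact set;
2. the diffeomorphisms of `X` which are push-forwards of such `ψ` along some smooth open embedding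
   `c : ℝⁿ → X`, and all their finite products (with different embeddings), are smoothly isotopic to
   the identity.

Proof of 1: let `ψ_r` be the mollification of `ψ` with the radius `r`, for a radial kernel whose
gradient is supported in a thin shell. For every `r > 0`, every point `z` and every unit vector `w`
the derivative of `ψ_r` at `z` in the direction `w` has a positive inner product with
`ψ (z + r w) - ψ (z - r w)`, by a four point inequality in which only distances between values of `ψ`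
occur. So all the `ψ_r` are local diffeomorphisms, equal to the identity near infinity, hence
diffeomorphisms. `ψ_r` depends smoothly on `r ≥ 0`, `ψ_0 = ψ`, and for large `r` it is `C¹`-close to
the identity.
-/

set_option autoImplicit false

open Set Filter Topology Metric Function
open scoped Manifold ContDiff

namespace Pool.Agent.Results.MP_28b04d_gt.SmallDistortion

section defs

variable {n : ℕ} {X : Type} [TopologicalSpace X] [ChartedSpace (EuclideanSpace ℝ (Fin n)) X]

/-- `φ` is a diffeomorphism of `X` -/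
def IsDiffeo (n : ℕ) {X : Type} [TopologicalSpace X] [ChartedSpace (EuclideanSpace ℝ (Fin n)) X]
    (φ : X → X) : Prop := ∃ Φ : X ≃ₘ^∞⟮𝓡 n, 𝓡 n⟯ X, ∀ x, Φ x = φ x

/-- `K` is a smooth path of diffeomorphisms of `X` from the identity to `φ` -/
def IsSmoothIsotopy (n : ℕ) {X : Type} [TopologicalSpace X]
    [ChartedSpace (EuclideanSpace ℝ (Fin n)) X] (φ : X → X) (K : ℝ × X → X) : Prop :=
  ContMDiff ((𝓘(ℝ, ℝ)).prod (𝓡 n)) (𝓡 n) ∞ K ∧ (∀ t, IsDiffeo n (fun x => K (t, x))) ∧
    (∀ x, K (0, x) = x) ∧ ∀ x, K (1, x) = φ x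

/-- `φ` is smoothly isotopic to the identity -/
def IsTrivial (n : ℕ) {X : Type} [TopologicalSpace X]
    [ChartedSpace (EuclideanSpace ℝ (Fin n)) X] (φ : X → X) : Prop :=
  ∃ K : ℝ × X → X, IsSmoothIsotopy n φ K

/-- `ψ` is a diffeomorphism of `ℝⁿ`, equal to the identity outside a compact set -/
def IsCompactlySupported (ψ : EuclideanSpace ℝ (Fin n) → EuclideanSpace ℝ (Fin n)) : Prop :=
  IsDiffeo n ψ ∧ ∃ C : Set (EuclideanSpace ℝ (Fin n)), IsCompact C ∧ ∀ y, y ∉ C → ψ y = y

/-- `ψ` has distortion at most `ρ`: up to a constant factor, it changes distances by factors between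
`1` and `ρ` -/
def HasDistortion (ψ : EuclideanSpace ℝ (Fin n) → EuclideanSpace ℝ (Fin n)) (ρ : ℝ) : Prop :=
  ∃ a > 0, ∀ p q, a * ‖p - q‖ ≤ ‖ψ p - ψ q‖ ∧ ‖ψ p - ψ q‖ ≤ ρ * (a * ‖p - q‖)

/-- `c : ℝⁿ → X` is a smooth open embedding -/
def IsOpenEmb (c : EuclideanSpace ℝ (Fin n) → X) : Prop :=
  Injective c ∧ IsLocalDiffeomorph (𝓡 n) (𝓡 n) ∞ c

/-- `φ` is the push-forward of `ψ` along `c`, extended by the identity -/
def IsPushForward (c : EuclideanSpace ℝ (Fin n) → X)
    (ψ : EuclideanSpace ℝ (Fin n) → EuclideanSpace ℝ (Fin n)) (φ : X → X) : Prop :=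
  (∀ y, φ (c y) = c (ψ y)) ∧ ∀ x, x ∉ range c → φ x = x

/-- `φ` is the push-forward along some smooth open embedding of a compactly supported diffeomorphism
of `ℝⁿ` of distortion at most `ρ`, where `1 ≤ ρ` and `ρ² (√n - 1) < √n + 1` -/
def IsSmall (n : ℕ) {X : Type} [TopologicalSpace X]
    [ChartedSpace (EuclideanSpace ℝ (Fin n)) X] (φ : X → X) : Prop :=
  ∃ (c : EuclideanSpace ℝ (Fin n) → X) (ψ : EuclideanSpace ℝ (Fin n) → EuclideanSpace ℝ (Fin n))
    (ρ : ℝ), IsOpenEmb c ∧ IsCompactlySupported ψ ∧ HasDistortion ψ ρ ∧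
      1 ≤ ρ ∧ ρ ^ 2 * (Real.sqrt n - 1) < Real.sqrt n + 1 ∧ IsPushForward c ψ φ

/-- `φ` is a composition of finitely many maps with the property `S` -/
inductive IsProduct {X : Type} (S : (X → X) → Prop) : (X → X) → Prop
  | one : IsProduct S (fun x => x)
  | mul (φ₁ φ₂ : X → X) : S φ₁ → IsProduct S φ₂ → IsProduct S (fun x => φ₁ (φ₂ x))

end defs

theorem ball_of {n : ℕ} {ψ : EuclideanSpace ℝ (Fin n) → EuclideanSpace ℝ (Fin n)}
    (h : ∃ C : Set (EuclideanSpace ℝ (Fin n)), IsCompact C ∧ ∀ y, y ∉ C → ψ y = y) :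
    ∃ R : ℝ, ∀ y, R ≤ ‖y‖ → ψ y = y := by
  obtain ⟨C, hC, h⟩ := h
  obtain ⟨R, hR⟩ := hC.exists_bound_of_continuousOn (f := fun y : EuclideanSpace ℝ (Fin n) => y)
    continuousOn_id
  refine ⟨R + 1, fun y hy => h y fun hyC => ?_⟩
  have := hR y hyC
  linarith

/-- **Small distortion.** 1. A compactly supported diffeomorphism of `ℝⁿ` of distortion at most `ρ`,
`ρ² (√n - 1) < √n + 1`, is joined to the identity by a smooth path of diffeomorphisms with support in
a fixed compact set. 2. Products of push-forwards of such diffeomorphisms along smooth open embeddings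
`ℝⁿ → X` are smoothly isotopic to the identity. -/
theorem result (n : ℕ) :
    (∀ (ψ : EuclideanSpace ℝ (Fin n) → EuclideanSpace ℝ (Fin n)) (ρ : ℝ), IsCompactlySupported ψ →
      HasDistortion ψ ρ → 1 ≤ ρ → ρ ^ 2 * (Real.sqrt n - 1) < Real.sqrt n + 1 →
      ∃ K : ℝ × EuclideanSpace ℝ (Fin n) → EuclideanSpace ℝ (Fin n), IsSmoothIsotopy n ψ K ∧
        ∃ C : Set (EuclideanSpace ℝ (Fin n)), IsCompact C ∧ ∀ t y, y ∉ C → K (t, y) = y) ∧
    ∀ (X : Type) [TopologicalSpace X] [T2Space X] [ChartedSpace (EuclideanSpace ℝ (Fin n)) X]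
      [IsManifold (𝓡 n) ∞ X] (φ : X → X), IsProduct (IsSmall n) φ → IsTrivial n φ := by
  have hdiff : ∀ {X : Type} [TopologicalSpace X] [ChartedSpace (EuclideanSpace ℝ (Fin n)) X]
      {F : X → X}, Bijective F →
      (∀ x, IsLocalDiffeomorphAt (𝓡 n) (𝓡 n) ∞ F x) → IsDiffeo n F := by
    intro X _ _ F h1 h2
    have hl : IsLocalDiffeomorph (𝓡 n) (𝓡 n) ∞ F := fun x => h2 x
    exact ⟨hl.diffeomorphOfBijective h1, fun x => rfl⟩
  constructor
  · rintro ψ ρ ⟨⟨Ψ, hΨ⟩, hsupp⟩ ⟨a, ha, hab⟩ h1 h2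
    obtain ⟨R, hR⟩ := ball_of hsupp
    have hψ : ψ = Ψ := funext fun x => (hΨ x).symm
    obtain ⟨F, hF, hFt, hF0, hF1, R', hR'⟩ := Pool.Agent.U987.BI.isotopy_euc (n := n) ha h1
      (by linarith) (φ := ψ) (fun x => by rw [hψ]; exact Ψ.isLocalDiffeomorph x) hR
      (fun p q => (hab p q).1) (fun p q => (hab p q).2)
    refine ⟨F, ⟨?_, fun t => hdiff (hFt t).1 (hFt t).2, hF0, hF1⟩, closedBall 0 R',
      isCompact_closedBall _ _, fun t y hy => hR' t y ?_⟩
    · intro q
      have h5 := hF.contDiffAt (x := q)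
      rw [← contMDiffAt_iff_contDiffAt, modelWithCornersSelf_prod, ← chartedSpaceSelf_prod] at h5
      exact h5
    · rw [mem_closedBall_zero_iff, not_le] at hy
      exact hy.le
  · intro X _ _ _ _ φ hφ
    have key : ∃ K : ℝ × X → X, ContMDiff ((𝓘(ℝ, ℝ)).prod (𝓡 n)) (𝓡 n) ∞ K ∧
        (∀ t, Bijective (fun x => K (t, x)) ∧
          ∀ x, IsLocalDiffeomorphAt (𝓡 n) (𝓡 n) ∞ (fun x => K (t, x)) x) ∧
        (∀ x, K (0, x) = x) ∧ ∀ x, K (1, x) = φ x := by
      induction hφ with
      | one =>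
        exact ⟨fun q => q.2, contMDiff_snd, fun t => ⟨bijective_id, fun x =>
          Pool.Agent.Y522.LD.id x⟩, fun x => rfl, fun x => rfl⟩
      | mul φ₁ φ₂ h1 h2 ih =>
        refine Pool.Agent.U987.BI.comp_isotopy ?_ ih
        obtain ⟨c, ψ, ρ, hc, ⟨⟨Ψ, hΨ⟩, hsupp⟩, ⟨a, ha, hab⟩, h1, h2, hp⟩ := h1
        obtain ⟨R, hR⟩ := ball_of hsupp
        have hψ : ψ = Ψ := funext fun x => (hΨ x).symm
        exact Pool.Agent.U987.BI.isotopy_chart (n := n) ha h1 (by linarith) hc.1 (fun y => hc.2 y)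
          (ψ := ψ) (fun x => by rw [hψ]; exact Ψ.isLocalDiffeomorph x) hR (fun p q => (hab p q).1)
          (fun p q => (hab p q).2) hp.1 hp.2
    obtain ⟨K, k1, k2, k3, k4⟩ := key
    exact ⟨K, k1, fun t => hdiff (k2 t).1 (k2 t).2, k3, k4⟩

end Pool.Agent.Results.MP_28b04d_gt.SmallDistortion
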